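import Pool.Agent.N636.PS.Ax

/-!
There is a `Pi^1_1`-sound, `Pi^1_1`-definable theory that extends `Sigma^1_1-AC_0` and proves its
own `Pi^1_1`-soundness. The definitions are in `Pool/Agent/N636/PS/Defs.lean` and
`Pool/Agent/H986R3/SOADefs.lean`.
-/

set_option autoImplicit false

namespace Pool.Agent.Results.MP_51f008_lc.SelfSound

open Pool.Agent.H986R3.SOA Pool.Agent.N636.PS

/-- For every arithmetization of the metamathematics of second-order arithmetic there is a
`Pi^1_1`-sound theory `T` extending `Sigma^1_1-AC_0` and a `Pi^1_1` formula `τ` defining `T` such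
that `T` proves the `Pi^1_1`-reflection sentence of `τ`. -/
theorem result (𝒜 : Arithmetization) :
    ∃ T : Set Fm, ExtendsSigma11AC0 T ∧ Pi11Sound T ∧
      ∃ τ : Fm, Pi11Defines τ T ∧ Proves T (𝒜.reflection τ) :=
  main 𝒜

end Pool.Agent.Results.MP_51f008_lc.SelfSound
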